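import Pool.Agent.TH901.H2A.Stm

/-!
# Commuting pairs of simple reflections: conjugacy of equivalent pairs, the two detecting forms
-/

set_option autoImplicit false

namespace Pool.Agent.TH921.H2A

open Pool.Agent.Helper741 Pool.Agent.TH901.H2A

section Grp

variable {G : Type} [Group G]

/-- the conjugator of two involutions whose product has odd order -/
lemma conj_odd {a b : G} (ha : a * a = 1) (hb : b * b = 1) {n : ℕ}
    (h : (a * b) ^ (2 * n + 1) = 1) : (a * b) ^ n * a * ((a * b) ^ n)⁻¹ = b := by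
  have h1 := alt_comm_of_pow ha hb h
  rw [alt_mul_two_add_one, alt_mul_two_add_one] at h1
  have hia : a⁻¹ = a := inv_eq_of_mul_eq_one_left ha
  have hib : b⁻¹ = b := inv_eq_of_mul_eq_one_left hb
  have h2 : ((a * b) ^ n)⁻¹ = (b * a) ^ n := by
    rw [← inv_pow, mul_inv_rev, hia, hib]
  have h3 : (a * b) ^ n * (b * a) ^ n = 1 := by rw [← h2, mul_inv_cancel]
  have h4 : ∀ k : ℕ, b * (a * b) ^ k = (b * a) ^ k * b := by
    intro k
    induction k with
    | zero => simp
    | succ k ih => rw [pow_succ, ← mul_assoc, ih, pow_succ]; simp only [mul_assoc]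
  rw [h1, h2]
  calc (b * a) ^ n * b * (b * a) ^ n = b * (a * b) ^ n * (b * a) ^ n := by rw [h4]
    _ = b := by rw [mul_assoc, h3, mul_one]

lemma conj_fix {a b c : G} (hac : a * c = c * a) (hbc : b * c = c * b) (n : ℕ) :
    (a * b) ^ n * c * ((a * b) ^ n)⁻¹ = c := by
  have h1 : Commute (a * b) c := (show Commute a c from hac).mul_left (show Commute b c from hbc)
  rw [(h1.pow_left n).eq, mul_assoc, mul_inv_cancel, mul_one]

lemma conj_swap {i j k : G} (hi : i * i = 1) (hj : j * j = 1) (hk : k * k = 1)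
    (hik : i * k = k * i) (hij : j * i * j = i * j * i) (hjk : j * k * j = k * j * k) :
    (j * i * k * j) * i * (j * i * k * j)⁻¹ = k := by
  rw [mul_inv_eq_iff_eq_mul]
  calc j * i * k * j * i = j * (i * k) * j * i := by simp only [mul_assoc]
    _ = j * k * (i * j * i) := by rw [hik]; simp only [mul_assoc]
    _ = (j * k * j) * i * j := by rw [← hij]; simp only [mul_assoc]
    _ = k * j * (k * i) * j := by rw [hjk]; simp only [mul_assoc]
    _ = k * (j * i * k * j) := by rw [← hik]; simp only [mul_assoc]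

end Grp

section Cox

variable {B : Type} [Fintype B] [DecidableEq B] {M : CoxeterMatrix B} {W : Type} [Group W]
  (cs : CoxeterSystem M W)

lemma comm_of_two {i k : B} (h : M i k = 2) : cs.simple i * cs.simple k =
    cs.simple k * cs.simple i := by
  have h1 := alt_comm_of_pow (cs.simple_mul_simple_self i) (cs.simple_mul_simple_self k)
    (cs.simple_mul_simple_pow i k)
  rw [h, alt_two, alt_two] at h1
  exact h1

lemma braid_three {i j : B} (h : M i j = 3) : cs.simple i * cs.simple j * cs.simple i =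
    cs.simple j * cs.simple i * cs.simple j := by
  have h1 := alt_comm_of_pow (cs.simple_mul_simple_self i) (cs.simple_mul_simple_self j)
    (cs.simple_mul_simple_pow i j)
  rw [h] at h1
  have h3 : (3 : ℕ) = 2 * 1 + 1 := rfl
  rw [h3, alt_mul_two_add_one, alt_mul_two_add_one, pow_one, pow_one] at h1
  exact h1

/-- simultaneously conjugate pairs -/
def CP (p q : B × B) : Prop := (M p.1 p.2 = 2 ↔ M q.1 q.2 = 2) ∧
  (M p.1 p.2 = 2 → ∃ g : W, g * cs.simple p.1 * g⁻¹ = cs.simple q.1 ∧
    g * cs.simple p.2 * g⁻¹ = cs.simple q.2)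

lemma cp_mv {p q : B × B} (h : Mv M p q) : CP cs p q := by
  cases h with
  | @left i j k hik hjk ho =>
    refine ⟨⟨fun _ => hjk, fun _ => hik⟩, fun _ => ?_⟩
    obtain ⟨n, hn⟩ := ho
    refine ⟨(cs.simple i * cs.simple j) ^ n, ?_, ?_⟩
    · apply conj_odd (cs.simple_mul_simple_self i) (cs.simple_mul_simple_self j)
      rw [← hn]
      exact cs.simple_mul_simple_pow i j
    · exact conj_fix (comm_of_two cs hik) (comm_of_two cs hjk) n
  | @right i j k hki hkj ho =>
    refine ⟨⟨fun _ => hkj, fun _ => hki⟩, fun _ => ?_⟩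
    obtain ⟨n, hn⟩ := ho
    refine ⟨(cs.simple i * cs.simple j) ^ n, ?_, ?_⟩
    · exact conj_fix (comm_of_two cs hki).symm (comm_of_two cs hkj).symm n
    · apply conj_odd (cs.simple_mul_simple_self i) (cs.simple_mul_simple_self j)
      rw [← hn]
      exact cs.simple_mul_simple_pow i j
  | @swap i j k hik hij hjk =>
    have hki : M k i = 2 := by rw [M.symmetric]; exact hik
    refine ⟨⟨fun _ => hki, fun _ => hik⟩, fun _ => ?_⟩
    have e1 := comm_of_two cs hik
    have e2 := (braid_three cs hij).symm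
    have e3 := braid_three cs hjk
    refine ⟨cs.simple j * cs.simple i * cs.simple k * cs.simple j, ?_, ?_⟩
    · exact conj_swap (cs.simple_mul_simple_self i) (cs.simple_mul_simple_self j)
        (cs.simple_mul_simple_self k) e1 e2 e3
    · have h1 : cs.simple j * cs.simple i * cs.simple k * cs.simple j =
          cs.simple j * cs.simple k * cs.simple i * cs.simple j := by
        rw [mul_assoc (cs.simple j), e1, ← mul_assoc]
      rw [h1]
      exact conj_swap (cs.simple_mul_simple_self k) (cs.simple_mul_simple_self j)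
        (cs.simple_mul_simple_self i) e1.symm e3 e2

lemma cp_refl (p : B × B) : CP cs p p := ⟨Iff.rfl, fun _ => ⟨1, by simp, by simp⟩⟩

lemma cp_symm {p q : B × B} (h : CP cs p q) : CP cs q p := by
  refine ⟨h.1.symm, fun hq => ?_⟩
  obtain ⟨g, h1, h2⟩ := h.2 (h.1.2 hq)
  refine ⟨g⁻¹, ?_, ?_⟩
  · rw [← h1]; group
  · rw [← h2]; group

lemma cp_trans {p q r : B × B} (h : CP cs p q) (h' : CP cs q r) : CP cs p r := by
  refine ⟨h.1.trans h'.1, fun hp => ?_⟩
  obtain ⟨g, h1, h2⟩ := h.2 hp
  obtain ⟨g', h3, h4⟩ := h'.2 (h.1.1 hp)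
  refine ⟨g' * g, ?_, ?_⟩
  · rw [← h3, ← h1]; group
  · rw [← h4, ← h2]; group

lemma cp_of {p q : B × B} (h : Eqv M p q) : CP cs p q := by
  unfold Eqv at h
  induction h with
  | rel x y h => exact cp_mv cs h
  | refl x => exact cp_refl cs x
  | symm x y _ ih => exact cp_symm cs ih
  | trans x y z _ _ ih1 ih2 => exact cp_trans cs ih1 ih2

end Cox

theorem conj_of : Pool.Agent.TH901.H2A.S_conj := by
  intro B _ _ M W _ cs a b i j hab h
  have h1 := cp_of cs h
  exact ⟨h1.1.1 hab, h1.2 hab⟩

/-! ### the forms -/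

section Form

variable {B : Type} [Fintype B] [DecidableEq B] {M : CoxeterMatrix B} {W : Type} [Group W]
  (cs : CoxeterSystem M W)

/-- simultaneous conjugates of the pair -/
def OO (a b : B) (x y : W) : Prop := ∃ g : W, x = g * cs.simple a * g⁻¹ ∧ y = g * cs.simple b * g⁻¹

lemma OO_conj (a b : B) (g x y : W) :
    OO cs a b (g * x * g⁻¹) (g * y * g⁻¹) ↔ OO cs a b x y := by
  constructor
  · rintro ⟨h, h1, h2⟩
    refine ⟨g⁻¹ * h, ?_, ?_⟩
    · calc x = g⁻¹ * (g * x * g⁻¹) * g := by group
        _ = _ := by rw [h1]; group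
    · calc y = g⁻¹ * (g * y * g⁻¹) * g := by group
        _ = _ := by rw [h2]; group
  · rintro ⟨h, h1, h2⟩
    refine ⟨g * h, ?_, ?_⟩
    · rw [h1]; group
    · rw [h2]; group

/-- the action by conjugation -/
def cj (W : Type) [Group W] : W →* Equiv.Perm W := (MulAut.toPerm W).comp MulAut.conj

lemma cj_apply (g x : W) : cj W g x = g * x * g⁻¹ := rfl

lemma sq_eq (i j : B) (m : ℕ) : sq (cj W) (cs.simple i) (cs.simple j) (cs.simple i) (cs.simple j) m =
    (List.range m).map fun k => (cs.simple i * cs.simple j) ^ k * cs.simple i := by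
  unfold Pool.Agent.TH901.H2A.sq
  apply List.map_congr_left
  intro k _
  rw [cj_apply, alt_conj (cs.simple_mul_simple_self i) (cs.simple_mul_simple_self j)]

lemma rev_elt {a b : W} (ha : a * a = 1) (hb : b * b = 1) {m k : ℕ} (h : (a * b) ^ m = 1)
    (hk : k < m) : (b * a) ^ k * b = (a * b) ^ (m - 1 - k) * a := by
  have hia : a⁻¹ = a := inv_eq_of_mul_eq_one_left ha
  have hib : b⁻¹ = b := inv_eq_of_mul_eq_one_left hb
  have h2 : (b * a) ^ (k + 1) = ((a * b) ^ (k + 1))⁻¹ := by
    rw [← inv_pow, mul_inv_rev, hia, hib]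
  have h3 : (a * b) ^ (m - 1 - k) = ((a * b) ^ (k + 1))⁻¹ := by
    rw [eq_inv_iff_mul_eq_one, ← pow_add]
    have : m - 1 - k + (k + 1) = m := by omega
    rw [this, h]
  rw [h3, ← h2, pow_succ]
  calc (b * a) ^ k * b = (b * a) ^ k * b * (a * a) := by rw [ha, mul_one]
    _ = _ := by simp only [mul_assoc]

lemma sq_rev (i j : B) : sq (cj W) (cs.simple j) (cs.simple i) (cs.simple j) (cs.simple i) (M i j) =
    (sq (cj W) (cs.simple i) (cs.simple j) (cs.simple i) (cs.simple j) (M i j)).reverse := by
  rw [sq_eq, sq_eq]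
  apply List.ext_getElem
  · simp
  · intro k h1 h2
    simp only [List.length_map, List.length_range] at h1
    rw [List.getElem_reverse]
    simp only [List.getElem_map, List.getElem_range, List.length_map, List.length_range]
    exact rev_elt (cs.simple_mul_simple_self i) (cs.simple_mul_simple_self j)
      (cs.simple_mul_simple_pow i j) h1

lemma sq_mem (i j : B) (m : ℕ) {x : W}
    (hx : x ∈ sq (cj W) (cs.simple i) (cs.simple j) (cs.simple i) (cs.simple j) m) :
    x ∈ Subgroup.closure {cs.simple i, cs.simple j} := by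
  rw [sq_eq, List.mem_map] at hx
  obtain ⟨k, _, rfl⟩ := hx
  have h1 : cs.simple i ∈ Subgroup.closure {cs.simple i, cs.simple j} :=
    Subgroup.subset_closure (by simp)
  have h2 : cs.simple j ∈ Subgroup.closure {cs.simple i, cs.simple j} :=
    Subgroup.subset_closure (by simp)
  exact Subgroup.mul_mem _ (Subgroup.pow_mem _ (Subgroup.mul_mem _ h1 h2) _) h1

lemma sq_two {i j : B} (h : M i j = 2) :
    sq (cj W) (cs.simple i) (cs.simple j) (cs.simple i) (cs.simple j) 2 =
      [cs.simple i, cs.simple j] := by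
  rw [sq_eq]
  have e : cs.simple i * cs.simple j * cs.simple i = cs.simple j := by
    rw [comm_of_two cs h, mul_assoc, cs.simple_mul_simple_self, mul_one]
  simp [List.range_succ, e]

lemma sumw_zero {X C : Type} [AddCommGroup C] (ω : X → X → C) (l : List X)
    (h : ∀ x ∈ l, ∀ y ∈ l, ω x y = 0) : sumw ω l = 0 := by
  induction l with
  | nil => rfl
  | cons x l ih =>
    rw [sumw, ih fun u hu v hv => h u (List.mem_cons_of_mem _ hu) v (List.mem_cons_of_mem _ hv),
      add_zero]
    apply List.sum_eq_zero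
    intro u hu
    rw [List.mem_map] at hu
    obtain ⟨v, hv, rfl⟩ := hu
    exact h x List.mem_cons_self v (List.mem_cons_of_mem _ hv)

lemma sumw_two {X C : Type} [AddCommGroup C] (ω : X → X → C) (x y : X) :
    sumw ω [x, y] = ω x y := by
  simp [sumw]

/-- no pair of the list is a conjugate of `(s_a, s_b)` unless `M i j = 2` -/
lemma no_OO (hp : S_pair) {a b i j : B} (hab : M a b = 2) (hij : i ≠ j) (hm : M i j ≠ 2) {x y : W}
    (hx : x ∈ Subgroup.closure {cs.simple i, cs.simple j})
    (hy : y ∈ Subgroup.closure {cs.simple i, cs.simple j}) : ¬ OO cs a b x y := by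
  rintro ⟨g, h1, h2⟩
  rw [h1] at hx
  rw [h2] at hy
  exact hm (hp B M W cs a b i j g hab hij hx hy).1

lemma OO_iff (hp : S_pair) (hc : S_conj) {a b i j : B} (hab : M a b = 2) (hij : i ≠ j) :
    OO cs a b (cs.simple i) (cs.simple j) ↔ Eqv M (a, b) (i, j) := by
  constructor
  · rintro ⟨g, h1, h2⟩
    have h3 := hp B M W cs a b i j g hab hij (by rw [← h1]; exact Subgroup.subset_closure (by simp))
      (by rw [← h2]; exact Subgroup.subset_closure (by simp))
    rcases h3.2 with h4 | h4
    · exact h4.2.2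
    · exfalso
      apply hij
      apply simple_injective cs
      rw [h1, h4.1]
  · intro h
    obtain ⟨_, g, h1, h2⟩ := hc B M W cs a b i j hab h
    exact ⟨g, h1.symm, h2.symm⟩

end Form

theorem det3_of (hp : Pool.Agent.TH901.H2A.S_pair) (hc : Pool.Agent.TH901.H2A.S_conj)
    (hr : Pool.Agent.TH901.H2A.S_real) : Pool.Agent.TH901.H2A.S_det3 := by
  classical
  intro B _ _ M a b hab hne
  let cs := M.toCoxeterSystem
  let ω : M.Group → M.Group → ℤ := fun x y => (if OO cs a b x y then 1 else 0) -
    (if OO cs a b y x then 1 else 0)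
  obtain ⟨c, hR, hc0, hc1⟩ := hr B M.Group M.Group ℤ M (cj M.Group) ω
    (fun x => by simp [ω]) (fun x y => by simp [ω])
    (fun g x y => by simp only [ω, cj_apply, OO_conj])
    cs.simple cs.simple
    (fun i j _ _ => alt_comm_of_pow (cs.simple_mul_simple_self i) (cs.simple_mul_simple_self j)
      (cs.simple_mul_simple_pow i j))
    (fun i j _ _ => sq_rev cs i j)
  refine ⟨c, hR, fun i j => ?_⟩
  have hsy : ∀ i j, M i j = M j i := fun i j => M.symmetric i j
  by_cases hij : i = j
  · subst hij
    rw [hc0 i i (Or.inl rfl)]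
    simp
  by_cases hm0 : M i j = 0
  · rw [hc0 i j (Or.inr hm0)]
    have h1 : ¬ Eqv M (a, b) (i, j) := fun h => by
      have := (hc B M M.Group cs a b i j hab h).1
      omega
    have h2 : ¬ Eqv M (a, b) (j, i) := fun h => by
      have := (hc B M M.Group cs a b j i hab h).1
      rw [hsy j i] at this
      omega
    simp [h1, h2]
  rw [hc1 i j hij hm0]
  by_cases hm : M i j = 2
  · rw [hm, sq_two cs hm, sumw_two]
    simp only [ω]
    rw [if_congr (OO_iff cs hp hc hab hij) rfl rfl,
      if_congr (OO_iff cs hp hc hab (Ne.symm hij)) rfl rfl]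
  · rw [sumw_zero]
    · have h1 : ¬ Eqv M (a, b) (i, j) := fun h => hm (hc B M M.Group cs a b i j hab h).1
      have h2 : ¬ Eqv M (a, b) (j, i) := fun h => by
        have := (hc B M M.Group cs a b j i hab h).1
        rw [hsy j i] at this
        exact hm this
      simp [h1, h2]
    · intro x hx y hy
      have hx' := sq_mem cs i j _ hx
      have hy' := sq_mem cs i j _ hy
      simp only [ω]
      rw [if_neg (no_OO cs hp hab hij hm hx' hy'), if_neg (no_OO cs hp hab hij hm hy' hx')]
      simp

theorem det4_of (hp : Pool.Agent.TH901.H2A.S_pair) (hc : Pool.Agent.TH901.H2A.S_conj)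
    (hr : Pool.Agent.TH901.H2A.S_real) : Pool.Agent.TH901.H2A.S_det4 := by
  classical
  intro B _ _ M a b hab hE
  let cs := M.toCoxeterSystem
  let ω : M.Group → M.Group → ZMod 2 := fun x y => if OO cs a b x y then 1 else 0
  have hsy : ∀ i j, M i j = M j i := fun i j => M.symmetric i j
  have hne : a ≠ b := by
    rintro rfl
    rw [M.diagonal] at hab
    omega
  obtain ⟨_, h, hh1, hh2⟩ := hc B M M.Group cs a b b a hab hE
  have hsym : ∀ x y, OO cs a b x y → OO cs a b y x := by
    rintro x y ⟨g, h1, h2⟩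
    refine ⟨g * h, ?_, ?_⟩
    · rw [h2, ← hh1]; group
    · rw [h1, ← hh2]; group
  obtain ⟨c, hR, hc0, hc1⟩ := hr B M.Group M.Group (ZMod 2) M (cj M.Group) ω
    (fun x => by
      have : ¬ OO cs a b x x := by
        rintro ⟨g, h1, h2⟩
        apply hne
        apply simple_injective cs
        have h3 := h1.symm.trans h2
        simpa using h3
      simp [ω, this])
    (fun x y => by
      by_cases h1 : OO cs a b x y
      · have h2 := hsym _ _ h1
        simp only [ω, if_pos h1, if_pos h2]
        rfl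
      · have h2 : ¬ OO cs a b y x := fun h2 => h1 (hsym _ _ h2)
        simp only [ω, if_neg h1, if_neg h2]
        rfl)
    (fun g x y => by simp only [ω, cj_apply, OO_conj])
    cs.simple cs.simple
    (fun i j _ _ => alt_comm_of_pow (cs.simple_mul_simple_self i) (cs.simple_mul_simple_self j)
      (cs.simple_mul_simple_pow i j))
    (fun i j _ _ => sq_rev cs i j)
  refine ⟨c, hR, fun i j => ?_⟩
  by_cases hij : i = j
  · subst hij
    rw [hc0 i i (Or.inl rfl)]
    have h1 : ¬ Eqv M (a, b) (i, i) := fun h => by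
      have := (hc B M M.Group cs a b i i hab h).1
      rw [M.diagonal] at this
      omega
    simp [h1]
  by_cases hm0 : M i j = 0
  · rw [hc0 i j (Or.inr hm0)]
    have h1 : ¬ Eqv M (a, b) (i, j) := fun h => by
      have := (hc B M M.Group cs a b i j hab h).1
      omega
    simp [h1]
  rw [hc1 i j hij hm0]
  by_cases hm : M i j = 2
  · rw [hm, sq_two cs hm, sumw_two]
    simp only [ω]
    rw [if_congr (OO_iff cs hp hc hab hij) rfl rfl]
  · rw [sumw_zero]
    · have h1 : ¬ Eqv M (a, b) (i, j) := fun h => hm (hc B M M.Group cs a b i j hab h).1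
      simp [h1]
    · intro x hx y hy
      have hx' := sq_mem cs i j _ hx
      have hy' := sq_mem cs i j _ hy
      simp only [ω]
      rw [if_neg (no_OO cs hp hab hij hm hx' hy')]

end Pool.Agent.TH921.H2A
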